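import Pool.Agent.L7h16.SV.Eq

/-!
# Weak approximation for systems of norm equations with random and metric sequences of shifts

Let `d_1, …, d_s ≥ 1`, let `L` be a cyclotomic field, and consider all the systems
`V_k : N_{Kᵢ/ℚ}(zᵢ) = cᵢ (f_{φ(i)}(t) + k_{φ(i)})`, `i < r`, `f_j(t) + k_j ≠ 0`, `j < s`, where the `f_j` are any integral
polynomials of degrees `d_j` in one variable, the `cᵢ` are nonzero integers, `φ` is any map, and the `Kᵢ` are subfields of `L`
with class numbers prime to their degrees, such that `-1` is a norm or all norms are nonnegative. The smooth projective models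
are rationally connected, with degenerate fibres over any number of points of any degrees. The starting file
`SeveralNormEquations` shows that for almost all vectors `k` in the boxes `|k_j| ≤ B X ^ (d_j)` all families of local points of
`V_k` at a finite set `T` of primes and at the real place, of a given level and at the scale `t ~ X`, are approximated by rational
points of `V_k`.

Here we show it for SEQUENCES of vectors `k`, for ALL the data `r, K, f, φ, c, T` and all levels at once, outside of one event
(set) of probability (measure) zero, and for ALL the vectors `k` in neighbourhoods of a radius `(log X) ^ A`: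

* for random vectors `Y_n` (of ANY dependence) in the boxes with `X = x_n ≥ exp (n ^ δ)`, with probabilities of the values at most
  `C x_n ^ (-∑ d_j)`, almost surely for all large `n`; if only `x_n ≥ n ^ δ` then for all but `M / (log M) ^ U` of the `n < M`;
* for almost all `β` in `ℝ ^ s` and the vectors near `(β_j x_n ^ (d_j))`, for all large `n`, if `x_n ≥ exp (n ^ δ)`; and for all but
  `M / (log M) ^ U` of the `n < M` if `x_n ≥ n ^ δ`. For instance, `V_k` with `k_j = ⌊β_j X ^ (d_j)⌋` has these properties at the
  scale `X`, for almost all `β` and almost all natural `X`: the real points of `V_k` at the scale `X` are near those of the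
  limit `N_{Kᵢ/ℚ}(zᵢ) = cᵢ (a_{φ(i)} t ^ d_{φ(i)} + β_{φ(i)})`, so that the shifts are fixed and only the scale tends to infinity.
-/

set_option autoImplicit false

namespace Pool.Agent.Results.MP_12adaf_nt.RandomAndMetricSystems

open Finset Polynomial NumberField Module
open Pool.Agent.L7h16.SV (RandomAndMetric Conditions)
open Pool.Agent.Results.MP_12adaf_nt.SeveralNormEquations (WeakApproximation)

/-- the data: subfields `Kᵢ` of `L`, polynomials `f_j`, a map `φ`, coefficients `cᵢ`, a finite set `T` of primes and the
levels `N` at the primes of `T` and `B` at the real place -/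
structure Data (L : Type) [Field L] [NumberField L] (s : ℕ) where
  r : ℕ
  K : Fin r → IntermediateField ℚ L
  f : Fin s → ℤ[X]
  φ : Fin r → Fin s
  c : Fin r → ℤ
  T : Finset Nat.Primes
  N : ℕ
  B : ℕ

instance (L : Type) [Field L] [NumberField L] (s : ℕ) : Countable (Data L s) := by
  have := Pool.Agent.N220.CF.finite_if L
  have := Pool.Agent.N220.CF.countable_poly
  have h : Function.Surjective (fun y : (Σ r : ℕ, (Fin r → IntermediateField ℚ L) × (Fin s → ℤ[X]) × (Fin r → Fin s) ×
      (Fin r → ℤ) × Finset Nat.Primes × ℕ × ℕ) => (⟨y.1, y.2.1, y.2.2.1, y.2.2.2.1, y.2.2.2.2.1, y.2.2.2.2.2.1,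
        y.2.2.2.2.2.2.1, y.2.2.2.2.2.2.2⟩ : Data L s)) := fun x => ⟨⟨x.r, x.K, x.f, x.φ, x.c, x.T, x.N, x.B⟩, rfl⟩
  exact h.countable

/-- **Weak approximation along random and metric sequences of systems.** Here `L` is the `m`-th cyclotomic field; the
property of the vector `k` at the scale `X` is weak approximation for `V_k` of level `N` at the primes of `T` and of level `B` at
the real place, at the scale `X`. -/
theorem result (m : ℕ) [NeZero m] (L : Type) [Field L] [NumberField L] [IsCyclotomicExtension {m} ℚ L] {s : ℕ}
    (d : Fin s → ℕ) (hd : ∀ j, 1 ≤ d j) :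
    RandomAndMetric d (fun (x : {x : Data L s // Conditions m d x.K x.f x.c x.T}) X k =>
      WeakApproximation x.1.K x.1.f x.1.φ x.1.c x.1.T x.1.N x.1.B X k) :=
  Pool.Agent.L7h16.SV.randomAndMetric _ hd fun x => Pool.Agent.L7h16.SV.sparse m hd x.1.φ x.2 x.1.N x.1.B

end Pool.Agent.Results.MP_12adaf_nt.RandomAndMetricSystems
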