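import Pool.Agent.L7h16.SV.Conv
import Pool.Agent.L7h16.SV.Eq
import Pool.Agent.Results.MP_12adaf_nt.RandomAndMetricSystems

/-!
# Weak approximation for systems of norm equations shifted by the numerators and denominators of convergents

Let `L` be a cyclotomic field, `e ≥ 1`, and consider all the systems
`V_k : N_{Kᵢ/ℚ}(zᵢ) = cᵢ (f_{φ(i)}(t) + k_{φ(i)})`, `i < r`, `f_j(t) + k_j ≠ 0`, `j = 0, …, n`, where the `f_j` are any integral
polynomials of degree `e` in one variable, the `cᵢ` are nonzero integers, `φ` is any map, and the `Kᵢ` are subfields of `L` with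
class numbers prime to their degrees, such that `-1` is a norm or all norms are nonnegative. There is ONE null set of vectors
`α` in `ℝ ^ n` such that for all the other `α`, ALL such systems, all finite sets `T` of primes containing the bad ones, all
levels `N` at `T` and `B` at the real place, and all `b`: for all but finitely many rational approximations `(p_1, …, p_n) / q`
with `|q α_j - p_j| ≤ b q ^ (-1/n)` the variety `V_k` with `k = (q, p_1, …, p_n)` satisfies weak approximation of these levels, at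
the scale `t ~ q ^ (1/e)` of the real points.

In particular, for almost every real number `ξ` and all but finitely many of its convergents `p / q` weak approximation of given
levels holds for the systems `N_{Kᵢ/ℚ}(zᵢ) = cᵢ (f(t) + q)`, `N_{Kᵢ'/ℚ}(zᵢ') = cᵢ' (g(t) + p)`. Both the numerator and the
denominator occur, and the set of the pairs `(q, p)` has dimension one in the plane of all `k`.
-/

set_option autoImplicit false

namespace Pool.Agent.Results.MP_12adaf_nt.ConvergentSystems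

open Finset Polynomial NumberField Module MeasureTheory Filter
open Pool.Agent.L7h16.SV (Conditions ae_vectors ae_convergents)
open Pool.Agent.Results.MP_12adaf_nt.SeveralNormEquations (WeakApproximation)
open Pool.Agent.Results.MP_12adaf_nt.RandomAndMetricSystems (Data)

/-- `|q α_j - p_j| ≤ b q ^ (-1/n)` for all `j` -/
def Approximates {n : ℕ} (b : ℝ) (α : Fin n → ℝ) (p : Fin n → ℤ) (q : ℕ) : Prop :=
  1 ≤ q ∧ ∀ j, |(q : ℝ) * α j - (p j : ℝ)| ≤ b * (q : ℝ) ^ (-(1 / n : ℝ))

/-- weak approximation for `V_k` at the scale `X` of the integral part of `q ^ (1/e)` -/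
def Holds {L : Type} [Field L] [NumberField L] {s : ℕ} (x : Data L s) (e q : ℕ) (k : Fin s → ℤ) : Prop :=
  ∀ X : ℕ, 1 ≤ X → X ^ e ≤ q → q < (X + 1) ^ e → WeakApproximation x.K x.f x.φ x.c x.T x.N x.B X k

lemma hyp (m : ℕ) [NeZero m] {L : Type} [Field L] [NumberField L] [IsCyclotomicExtension {m} ℚ L] {n e : ℕ} (he : 1 ≤ e)
    (x : Data L (n + 1)) (hx : Conditions m (fun _ : Fin (n + 1) => e) x.K x.f x.c x.T) :
    ∀ B₁ : ℕ, ∃ X₀ : ℕ, ∀ X : ℕ, X₀ ≤ X → ({k : Fin (n + 1) → ℤ | (∀ j, |k j| ≤ ((B₁ * X ^ e : ℕ) : ℤ)) ∧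
      ∃ X' : ℕ, X ≤ X' ∧ X' < 2 * X ∧ ¬ WeakApproximation x.K x.f x.φ x.c x.T x.N x.B X' k}.ncard : ℝ) ≤
      (X : ℝ) ^ (e * (n + 1)) / Real.log X ^ 2 := by
  intro B₁
  obtain ⟨X₀, h1, hX⟩ := Pool.Agent.L7h16.SV.count m (d := fun _ : Fin (n + 1) => e) (fun _ => he) x.φ hx x.N x.B B₁ 2
  refine ⟨X₀, fun X h2 => ?_⟩
  have h3 := hX X h2
  have e1 : ∑ _j : Fin (n + 1), e = e * (n + 1) := by simp [mul_comm]
  rw [e1] at h3
  refine le_trans ?_ h3
  have hf := Pool.Agent.L7h16.SV.box_finite (fun _ : Fin (n + 1) => e) B₁ X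
    (fun k => ∃ X' : ℕ, X ≤ 2 * X' ∧ X' ≤ 2 * X ∧ ¬ WeakApproximation x.K x.f x.φ x.c x.T x.N x.B X' k)
  have h4 : {k : Fin (n + 1) → ℤ | (∀ j, |k j| ≤ ((B₁ * X ^ e : ℕ) : ℤ)) ∧
      ∃ X' : ℕ, X ≤ X' ∧ X' < 2 * X ∧ ¬ WeakApproximation x.K x.f x.φ x.c x.T x.N x.B X' k} ⊆
      {k : Fin (n + 1) → ℤ | (∀ j, |k j| ≤ ((B₁ * X ^ e : ℕ) : ℤ)) ∧
      ∃ X' : ℕ, X ≤ 2 * X' ∧ X' ≤ 2 * X ∧ ¬ WeakApproximation x.K x.f x.φ x.c x.T x.N x.B X' k} :=
    fun k ⟨hk, X', h5, h6, h7⟩ => ⟨hk, X', by omega, by omega, h7⟩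
  exact_mod_cast Set.ncard_le_ncard h4 hf

/-- **Weak approximation for systems shifted by the rational approximations of almost every vector.** Here `L` is the `m`-th
cyclotomic field, and the vector `k` is `(q, p_1, …, p_n)`. The second part is about the convergents of almost every number. -/
theorem result (m : ℕ) [NeZero m] (L : Type) [Field L] [NumberField L] [IsCyclotomicExtension {m} ℚ L] (e : ℕ) (he : 1 ≤ e) :
    (∀ n : ℕ, 1 ≤ n → ∀ᵐ α : Fin n → ℝ, ∀ x : Data L (n + 1), Conditions m (fun _ => e) x.K x.f x.c x.T → ∀ b : ℝ,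
      {t : (Fin n → ℤ) × ℕ | Approximates b α t.1 t.2 ∧ ¬ Holds x e t.2 (Fin.cons (t.2 : ℤ) t.1)}.Finite) ∧
    ∀ᵐ ξ : ℝ, ∀ x : Data L 2, Conditions m (fun _ => e) x.K x.f x.c x.T → ∀ᶠ N : ℕ in atTop,
      Holds x e (ξ.convergent N).den ![((ξ.convergent N).den : ℤ), (ξ.convergent N).num] := by
  refine ⟨fun n hn => ?_, ?_⟩
  · rw [ae_all_iff]
    intro x
    by_cases hx : Conditions m (fun _ => e) x.K x.f x.c x.T
    · filter_upwards [ae_vectors hn he (fun X k => ¬ WeakApproximation x.K x.f x.φ x.c x.T x.N x.B X k)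
        (hyp m he x hx)] with α hα _ b
      refine (hα b).subset ?_
      rintro ⟨p, q⟩ ⟨h1, h2⟩
      unfold Holds at h2
      push Not at h2
      obtain ⟨X, h3, h4, h5, h6⟩ := h2
      exact ⟨⟨X, h3, h4, h5, h6⟩, h1.1, h1.2⟩
    · exact Eventually.of_forall fun α h => absurd h hx
  · rw [ae_all_iff]
    intro x
    by_cases hx : Conditions m (fun _ => e) x.K x.f x.c x.T
    · filter_upwards [ae_convergents he (fun X k => ¬ WeakApproximation x.K x.f x.φ x.c x.T x.N x.B X k)
        (hyp m (n := 1) he x hx)] with ξ hξ _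
      filter_upwards [hξ] with N hN X h1 h2 h3
      exact not_not.1 (hN X h1 h2 h3)
    · exact Eventually.of_forall fun α h => absurd h hx

end Pool.Agent.Results.MP_12adaf_nt.ConvergentSystems
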