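import Pool.Agent.L7h2.DS.All

/-!
# MP_12adaf_nt: weak approximation for `N_{Kᵢ/ℚ}(zᵢ) = cᵢ (f(t) + k)`, where the digits of `k` belong to a thin set

Let `f` be an integral polynomial of any degree `e ≥ 1`, let the `cᵢ`, `i < r`, be nonzero integers, and let the `Kᵢ` be
subfields of a cyclotomic field, of any degrees, with class numbers prime to their degrees, such that `-1` is a norm (for
example if the degree is odd) or all norms are nonnegative. The varieties `V_k : N_{Kᵢ/ℚ}(zᵢ) = cᵢ (f(t) + k) ≠ 0` are smooth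
and geometrically rational. The starting files (`AbelianNormForms`, `SeveralNormEquations`) prove weak approximation for almost
all `k` in boxes. Here `k = c₁ + d`, where `c₁` is arbitrary and the digits of `d` in a large base `g` are independent random
variables with arbitrary distributions of small variation, for example uniform on the digits different from a missing digit:
the integers `k` belong to a Cantor set of dimension less than `1`. Outside of one set of exceptional `d` (of probability at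
most `(log) ^ (-U)`) the points of `V_k` over the `ℚ_p`, `p` in `T`, and over `ℝ` can be approximated by rational points, for
ALL the systems of equations as above with a polynomial `f` of degree `e`.

Proof. (i) `Pool.Agent.L7h18.DG.prefix_all` (of our team) estimates `∑ φ(F(n) + k)` for random `k`, all the polynomials `F` of
degree `e`, and one arbitrary function `φ` with a small Fourier transform. It is applied to the functions
`y ↦ Λ((r + Δ y) / S) - (sieve model)`; so the prime values of `(r + Δ (F(n) + k)) / S`, that is, the rational `t` for which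
`f(t) + k` is a prime number up to the primes of `T`, can be found for all the denominators and all the factors
composed of the primes of `T`. (ii) Such a value, times `cᵢ`, is a norm from `Kᵢ` if it is close to local norms at `T`, and the
coordinates of the `zᵢ` are approximated by the theorem 90 of Hilbert (starting files `Pool/Agent/R479/NF`).
-/

set_option autoImplicit false

namespace Pool.Agent.Results.MP_12adaf_nt.MissingDigitShifts

open Finset Polynomial NumberField Module TensorProduct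

instance (p : Nat.Primes) : Fact (p : ℕ).Prime := ⟨p.2⟩

variable {L : Type} [Field L] [NumberField L] {r : ℕ}

/-- The class number of the field `K` is prime to its degree, and `-1` is a norm or no negative number is a
norm. -/
def Admissible (K : IntermediateField ℚ L) : Prop :=
  (classNumber K).Coprime (finrank ℚ K) ∧
    ((∃ x : K, Algebra.norm ℚ x = -1) ∨ ∀ x : K, 0 ≤ Algebra.norm ℚ x)

/-- The point `(t, z)` with coordinates in the field `F` lies on `V_k : N_{Kᵢ/ℚ}(zᵢ) = cᵢ (f(t) + k) ≠ 0`. The coordinates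
`zᵢ` form an element of `F ⊗ Kᵢ`. -/
def OnV (K : Fin r → IntermediateField ℚ L) (f : ℤ[X]) (c : Fin r → ℤ) (k : ℤ)
    {F : Type} [Field F] [Algebra ℚ F] (t : F) (z : (i : Fin r) → F ⊗[ℚ] (K i)) : Prop :=
  aeval t f + (k : F) ≠ 0 ∧ ∀ i, Algebra.norm F (z i) = (c i : F) * (aeval t f + (k : F))

/-- The coordinates of an element of `F ⊗ K`, with respect to an integral basis of `K`. -/
noncomputable def coord (K : IntermediateField ℚ L) {F : Type} [Field F] [Algebra ℚ F] (z : F ⊗[ℚ] K)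
    (j : Free.ChooseBasisIndex ℤ (𝓞 K)) : F :=
  (Algebra.TensorProduct.basis F (integralBasis K)).repr z j

/-- Given points: for all `p` in `T` the point `(t_p, z_p)` lies on `V_k`, its coordinates have absolute value at most
`p ^ N` and `|f(t_p) + k| ≥ p ^ (-N)`; and `(tr, zr)` is a real point of `V_k` with `|tr| ≤ B X` and
`|f(tr) + k| ≥ X ^ deg f / B`. -/
def Given (K : Fin r → IntermediateField ℚ L) (f : ℤ[X]) (c : Fin r → ℤ)
    (T : Finset Nat.Primes) (N B X : ℕ) (k : ℤ) (t : (p : Nat.Primes) → ℚ_[(p : ℕ)])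
    (z : (p : Nat.Primes) → (i : Fin r) → ℚ_[(p : ℕ)] ⊗[ℚ] (K i)) (tr : ℝ)
    (zr : (i : Fin r) → ℝ ⊗[ℚ] (K i)) : Prop :=
  (∀ p ∈ T, OnV K f c k (t p) (z p) ∧ ‖t p‖ ≤ ((p : ℕ) : ℝ) ^ N ∧
    (∀ i j, ‖coord (K i) (z p i) j‖ ≤ ((p : ℕ) : ℝ) ^ N) ∧
    (((p : ℕ) : ℝ) ^ N)⁻¹ ≤ ‖aeval (t p) f + (k : ℚ_[(p : ℕ)])‖) ∧
  OnV K f c k tr zr ∧ |tr| ≤ B * X ∧ (X : ℝ) ^ f.natDegree ≤ B * |aeval tr f + (k : ℝ)|

/-- There is a rational point `(q, y)` of `V_k` with `|q - tr| ≤ X / B`, such that `f(q) + k` has the sign of `f(tr) + k`,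
`q` is within `p ^ (-N)` of `t_p` for all `p` in `T`, and the coordinates of `yᵢ` are within `p ^ (-N)` of those of
`z_{p,i}` for all `p` in `T` and all `i` for which `Kᵢ` is cyclic over `ℚ`. -/
def Approximated (K : Fin r → IntermediateField ℚ L) (f : ℤ[X])
    (c : Fin r → ℤ) (T : Finset Nat.Primes) (N B X : ℕ) (k : ℤ)
    (t : (p : Nat.Primes) → ℚ_[(p : ℕ)]) (z : (p : Nat.Primes) → (i : Fin r) → ℚ_[(p : ℕ)] ⊗[ℚ] (K i))
    (tr : ℝ) : Prop :=
  ∃ (q : ℚ) (y : (i : Fin r) → ℚ ⊗[ℚ] (K i)), OnV K f c k q y ∧ B * |(q : ℝ) - tr| ≤ X ∧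
    0 < (aeval (q : ℝ) f + (k : ℝ)) * (aeval tr f + (k : ℝ)) ∧
    ∀ p ∈ T, ‖(q : ℚ_[(p : ℕ)]) - t p‖ ≤ (((p : ℕ) : ℝ) ^ N)⁻¹ ∧
      ∀ i, IsGalois ℚ (K i) → IsCyclic (K i ≃ₐ[ℚ] K i) → ∀ j,
        ‖((coord (K i) (y i) j : ℚ) : ℚ_[(p : ℕ)]) - coord (K i) (z p i) j‖ ≤ (((p : ℕ) : ℝ) ^ N)⁻¹

/-- Weak approximation of level `N` at the primes of `T`, and of level `B` at the real place. -/
def WeakApproximation (K : Fin r → IntermediateField ℚ L) (f : ℤ[X])
    (c : Fin r → ℤ) (T : Finset Nat.Primes) (N B X : ℕ) (k : ℤ) : Prop :=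
  ∀ (t : (p : Nat.Primes) → ℚ_[(p : ℕ)]) (z : (p : Nat.Primes) → (i : Fin r) → ℚ_[(p : ℕ)] ⊗[ℚ] (K i))
    (tr : ℝ) (zr : (i : Fin r) → ℝ ⊗[ℚ] (K i)), Given K f c T N B X k t z tr zr →
    Approximated K f c T N B X k t z tr

/-- The total variation of a function `p` on the digits `0, ..., g - 1`, continued by zero outside: for the uniform
distribution on a set of `s` digits which is the union of `a` (nonadjacent) intervals it is `2 a / s`. -/
noncomputable def variation (g : ℕ) (p : ℕ → ℝ) : ℝ :=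
  |p 0| + ∑ i ∈ range (g - 1), |p (i + 1) - p i| + |p (g - 1)|

/-- `p i` is the distribution of the `i`-th digit in base `g`: a probability on `{0, ..., g - 1}` the variation of which is
at most `g ^ (1 / n) / g`. -/
def DigitLaws (g n : ℕ) (p : ℕ → ℕ → ℝ) : Prop :=
  ∀ i, (∀ j, 0 ≤ p i j) ∧ ∑ j ∈ range g, p i j = 1 ∧ (g * variation g (p i)) ^ n ≤ g

/-- The probability of `d` (where `0 ≤ d < g ^ J`) if the `J` digits `d / g ^ i % g` of `d` in base `g` are independent and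
the `i`-th digit has the distribution `p i`. -/
noncomputable def prob (g J : ℕ) (p : ℕ → ℕ → ℝ) (d : ℕ) : ℝ := ∏ i ∈ range J, p i (d / g ^ i % g)

/-- Let `e ≥ 1`. There are `n` and `g₀` such that for all bases `g ≥ g₀` and all `A` and `U` there are sets `Ex J p c₁` of
exceptional integers `d < g ^ J` with the following properties. For large `J`, for all the distributions `p i` of digits of
variation at most `g ^ (1 / n) / g` and all integers `|c₁| ≤ J ^ A g ^ J` a random `d` with `J` independent digits with the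
distributions `p i` belongs to `Ex J p c₁` with a probability of at most `J ^ (-U)`. And for ALL systems `V_k`, that is, for all
cyclotomic fields `L`, all (admissible) subfields `K₁, …, K_r` of `L`, all integral polynomials `f` of degree `e`, all nonzero
integers `cᵢ`, all finite sets `T` of primes which contain the primes `p ≤ e` and those which divide `m` (where `L = ℚ(ζ_m)`),
the leading coefficient of `f` or one of the `cᵢ`, and all levels `N`, `B`, there is a `J₀` such that for all `J ≥ J₀`, all `p`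
and `c₁` as above, all `d < g ^ J` outside of `Ex J p c₁`, and all scales `X` with `g ^ J ≤ X ^ e J ^ A` and
`X ^ e ≤ g ^ J J ^ A`, weak approximation of the levels `N`, `B` at the scale `X` holds for `V_k`, `k = c₁ + d`. -/
theorem result (e : ℕ) (he : 1 ≤ e) : ∃ n g₀ : ℕ, ∀ g : ℕ, g₀ ≤ g → ∀ A U : ℕ,
    ∃ Ex : ℕ → (ℕ → ℕ → ℝ) → ℤ → Finset ℕ,
      (∃ J₀ : ℕ, ∀ J : ℕ, J₀ ≤ J → ∀ p : ℕ → ℕ → ℝ, DigitLaws g n p → ∀ c₁ : ℤ, |c₁| ≤ (J : ℤ) ^ A * (g : ℤ) ^ J →
        Ex J p c₁ ⊆ range (g ^ J) ∧ ∑ d ∈ Ex J p c₁, prob g J p d ≤ 1 / (J : ℝ) ^ U) ∧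
      ∀ (m : ℕ) [NeZero m] (L : Type) [Field L] [NumberField L] [IsCyclotomicExtension {m} ℚ L] (r : ℕ)
        (K : Fin r → IntermediateField ℚ L), (∀ i, Admissible (K i)) →
        ∀ f : ℤ[X], f.natDegree = e → ∀ c : Fin r → ℤ, (∀ i, c i ≠ 0) →
        ∀ T : Finset Nat.Primes, (∀ p : Nat.Primes, ((p : ℕ) ≤ e ∨ (p : ℕ) ∣ m ∨
          ((p : ℕ) : ℤ) ∣ f.leadingCoeff ∨ ∃ i, ((p : ℕ) : ℤ) ∣ c i) → p ∈ T) →
        ∀ N B : ℕ, 1 ≤ B → ∃ J₀ : ℕ, ∀ J : ℕ, J₀ ≤ J → ∀ p : ℕ → ℕ → ℝ, DigitLaws g n p →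
          ∀ c₁ : ℤ, |c₁| ≤ (J : ℤ) ^ A * (g : ℤ) ^ J →
          ∀ X : ℕ, g ^ J ≤ X ^ e * J ^ A → X ^ e ≤ g ^ J * J ^ A → ∀ d : ℕ, d < g ^ J → d ∉ Ex J p c₁ →
            WeakApproximation K f c T N B X (c₁ + d) := by
  obtain ⟨n, b₀, h⟩ := Pool.Agent.L7h2.DS.fin e he
  have hlaw : ∀ (g : ℕ) (p : ℕ → ℕ → ℝ), DigitLaws g n p → Pool.Agent.L7h18.DG.Law g p ∧
      ∀ i, (Pool.Agent.L7h18.DG.vari g (p i) * g) ^ n ≤ g := by
    intro g p hp
    refine ⟨fun i => ⟨(hp i).1, (hp i).2.1⟩, fun i => ?_⟩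
    rw [mul_comm]
    exact (hp i).2.2
  refine ⟨n, b₀, fun g hg A U => ?_⟩
  obtain ⟨Ex, ⟨K0, h1⟩, h2⟩ := h g hg A U
  refine ⟨Ex, ⟨K0, fun J hJ p hp c₁ hc₁ => ?_⟩, ?_⟩
  · obtain ⟨g1, g2⟩ := h1 J hJ p (hlaw g p hp).1 (hlaw g p hp).2 c₁ hc₁
    refine ⟨g1, le_trans (le_of_eq ?_) g2⟩
    exact sum_congr rfl fun d _ => (Pool.Agent.L7h18.DG.Wt_eq g J p d).symm
  · intro m _ L _ _ _ r K hK f hf c hc T hT N B hB
    obtain ⟨J₀, h3⟩ := h2 m L r K hK (fun _ => f) hf (fun _ => 0) c hc T hT N B hB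
    refine ⟨J₀, fun J hJ p hp c₁ hc₁ X hX1 hX2 d hd hdE => ?_⟩
    have h4 := h3 J hJ p (hlaw g p hp).1 (hlaw g p hp).2 c₁ hc₁ X hX1 hX2 d hd hdE
    intro t z tr zr hg'
    obtain ⟨a1, a2, a3, a4⟩ := hg'
    obtain ⟨q, y, b1, b2, b3, b4⟩ := h4 t z tr zr ⟨fun p hp => ⟨⟨fun _ => (a1 p hp).1.1, (a1 p hp).1.2⟩, (a1 p hp).2.1,
      (a1 p hp).2.2.1, fun _ => (a1 p hp).2.2.2⟩, ⟨fun _ => a2.1, a2.2⟩, a3, fun _ => a4⟩
    exact ⟨q, y, ⟨b1.1 0, b1.2⟩, b2, b3 0, b4⟩

end Pool.Agent.Results.MP_12adaf_nt.MissingDigitShifts
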