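import Pool.Agent.R482.ST.SlowD
import Pool.Agent.Results.MP_12adaf_nt.MetricSequences

/-!
# Approximation of local points on all varieties `N_{Kᵢ/ℚ}(zᵢ) = cᵢ (f(t) + k)` with `k` near the powers of almost every number

Let `L` be a cyclotomic field and let `v_n ≥ 1` be a sequence with a finite exponent of convergence (for instance `v_n = n + 1`
or `v_n = 3 ^ n`). There are finite sets `T₀(K, f, c)` of primes such that for almost every `α > 1`, for ALL
integral polynomials `f` of degree at least two in any number of variables, all nonzero integers `cᵢ`, all abelian fields `Kᵢ` in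
`L` with class numbers prime to their degrees, such that `-1` is a norm or all norms are nonnegative, all finite sets
`T ⊇ T₀(K, f, c)` of primes, all `N`, all `A` and all large `n`: for ALL integers `k` with `||k| - α ^ (v_n)| ≤ v_n ^ A` the variety
`V_k : N_{Kᵢ/ℚ}(zᵢ) = cᵢ (f(t) + k) ≠ 0` has the property of the starting theorem `AbelianNormForms`: under the necessary condition
at the real place every family of `p`-adic points, `p` in `T`, of level `N` is approximated by a rational point in the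
coordinates `t`. In particular all the `V_k`, `k` near a power of `α`, satisfy the Hasse principle in this sense. The null set
depends only on `L` and on the sequence.
-/

set_option autoImplicit false

namespace Pool.Agent.Results.MP_12adaf_nt.NearPowers

open Finset MvPolynomial NumberField Module MeasureTheory
open Pool.Agent.R482.ST (Thin thin_of_card thin_family thin_family_pow)
open Pool.Agent.Results.MP_12adaf_nt.AbelianNormForms (Approximation RealCond)
open Pool.Agent.Results.MP_12adaf_nt.MetricSequences (Data Good)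

/-- **Approximation of local points for all shifts near the powers of almost every number.** Here `L` is the `m`-th cyclotomic
field. The sequence `v` has a finite exponent of convergence in (1); (2) is about the powers `α ^ n`. -/
theorem result (m : ℕ) [NeZero m] (L : Type) [Field L] [NumberField L] [IsCyclotomicExtension {m} ℚ L] :
    ∃ T₀ : ∀ {r s : ℕ}, (Fin r → IntermediateField ℚ L) → MvPolynomial (Fin s) ℤ → (Fin r → ℤ) → Finset Nat.Primes,
      (∀ (v : ℕ → ℝ) (t : ℝ), (∀ n, 1 ≤ v n) → (Summable fun n => (v n) ^ (-t)) →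
        ∀ᵐ α : ℝ, 1 < α → ∀ x : Data L, x.Conditions → T₀ x.K x.f x.c ⊆ x.T → ∀ A : ℕ, ∃ n₀ : ℕ, ∀ n : ℕ, n₀ ≤ n →
          ∀ k : ℤ, |(|k| : ℝ) - α ^ (v n)| ≤ (v n) ^ A → Good x k) ∧
      ∀ᵐ α : ℝ, 1 < α → ∀ x : Data L, x.Conditions → T₀ x.K x.f x.c ⊆ x.T → ∀ A : ℕ, ∃ n₀ : ℕ, ∀ n : ℕ, n₀ ≤ n →
        ∀ k : ℤ, |(|k| : ℝ) - α ^ n| ≤ (n : ℝ) ^ A → Good x k := by
  classical
  have h0 : ∀ (r s : ℕ) (K : Fin r → IntermediateField ℚ L) (f : MvPolynomial (Fin s) ℤ) (c : Fin r → ℤ),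
      ∃ T₀ : Finset Nat.Primes, (∀ i, AbelianNormForms.Admissible (K i)) ∧ 2 ≤ f.totalDegree ∧ (∀ i, c i ≠ 0) →
      ∀ T : Finset Nat.Primes, T₀ ⊆ T → ∀ N : ℕ, Thin (fun k => ¬ (RealCond K f c k → Approximation K f c T N k)) := by
    intro r s K f c
    by_cases hc : (∀ i, AbelianNormForms.Admissible (K i)) ∧ 2 ≤ f.totalDegree ∧ (∀ i, c i ≠ 0)
    · obtain ⟨T₀, h⟩ := Pool.Agent.Results.MP_12adaf_nt.AbelianNormForms.result m K hc.1 f hc.2.1 c hc.2.2
      refine ⟨T₀, fun _ T hT N => thin_of_card _ fun U => ?_⟩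
      obtain ⟨X₀, hX₀⟩ := h T hT N U
      refine ⟨X₀, fun X hX => le_trans (le_of_eq ?_) (hX₀ X hX)⟩
      congr!
    · exact ⟨∅, fun h => absurd h hc⟩
  choose T₀ hT₀ using h0
  have h1 : ∀ x : Data L, x.Conditions → T₀ x.r x.s x.K x.f x.c ⊆ x.T → Thin (fun k => ¬ Good x k) :=
    fun x hx hT => hT₀ x.r x.s x.K x.f x.c ⟨hx.fields, hx.degree, hx.nonzero⟩ x.T hT x.N
  have key : ∀ {w : ℝ → ℕ → ℕ → ℤ → Prop}, (∃ N : Set ℝ, volume N = 0 ∧ ∀ α : ℝ, 1 < α → α ∉ N → ∀ x : Data L,
      Thin (fun k => ¬ Good x k) → ∀ A : ℕ, ∃ n₀ : ℕ, ∀ n : ℕ, n₀ ≤ n → ∀ k : ℤ, w α A n k → ¬ ¬ Good x k) →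
      ∀ᵐ α : ℝ, 1 < α → ∀ x : Data L, x.Conditions → T₀ x.r x.s x.K x.f x.c ⊆ x.T → ∀ A : ℕ, ∃ n₀ : ℕ, ∀ n : ℕ, n₀ ≤ n →
        ∀ k : ℤ, w α A n k → Good x k := by
    rintro w ⟨E, hE, h⟩
    filter_upwards [measure_eq_zero_iff_ae_notMem.1 hE] with α hα h1α x hx hT A
    obtain ⟨n₀, hn⟩ := h α h1α hα x (h1 x hx hT) A
    exact ⟨n₀, fun n h2 k h3 => not_not.1 (hn n h2 k h3)⟩
  refine ⟨fun {r s} => T₀ r s, fun v t hv ht => ?_, ?_⟩
  · exact key (w := fun α A n k => |(|k| : ℝ) - α ^ (v n)| ≤ (v n) ^ A) (thin_family (fun x k => ¬ Good x k) hv ht)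
  · exact key (w := fun α A n k => |(|k| : ℝ) - α ^ n| ≤ (n : ℝ) ^ A) (thin_family_pow (fun x k => ¬ Good x k))

end Pool.Agent.Results.MP_12adaf_nt.NearPowers
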